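import Pool.Agent.DPS.Stmts

/-!
DPS row KNA (MP_d97b4e_co): the Kneser matrix is the alternating sum of the matrices `M n k r`.
-/

namespace Pool.Agent.DPS.H39

open Finset

theorem sum_psc {n : ℕ} (r : ℕ) (g : Finset (Fin n) → ℝ) :
    ∑ R ∈ Finset.powersetCard r (Finset.univ : Finset (Fin n)), g R
      = ∑ R : Finset (Fin n), if R.card = r then g R else 0 := by
  rw [← Finset.sum_filter]
  refine Finset.sum_congr ?_ fun _ _ => rfl
  ext R
  simp [Finset.mem_powersetCard]

theorem alt_sum {n : ℕ} (H : Finset (Fin n)) :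
    ∑ R : Finset (Fin n), (if R ⊆ H then (-1 : ℝ) ^ R.card else 0) = if H = ∅ then 1 else 0 := by
  rw [← Finset.sum_filter]
  have h : (Finset.univ : Finset (Finset (Fin n))).filter (fun R => R ⊆ H) = H.powerset := by
    ext R
    simp
  rw [h]
  have h2 := Finset.sum_powerset_neg_one_pow_card (x := H)
  have h3 : ((∑ m ∈ H.powerset, (-1 : ℤ) ^ m.card : ℤ) : ℝ) = ((if H = ∅ then 1 else 0 : ℤ) : ℝ) := by
    rw [h2]
  push_cast at h3
  rw [h3]

theorem kna : KNAStmt := by
  intro n k f
  funext F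
  rw [Finset.sum_apply]
  have h1 : ∀ r ∈ Finset.range (k + 1), (((-1 : ℝ) ^ r) • M n k r f) F
      = ∑ R : Finset (Fin n), if R.card = r then
          (-1 : ℝ) ^ R.card * ((if R ⊆ F.1 then (1 : ℝ) else 0) * dg f R) else 0 := by
    intro r _
    have : (((-1 : ℝ) ^ r) • M n k r f) F
        = (-1 : ℝ) ^ r * ∑ R ∈ Finset.powersetCard r (Finset.univ : Finset (Fin n)),
          (if R ⊆ F.1 then (1 : ℝ) else 0) * dg f R := rfl
    rw [this, sum_psc, Finset.mul_sum]
    refine Finset.sum_congr rfl fun R _ => ?_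
    split_ifs with h <;> simp [h]
  rw [Finset.sum_congr rfl h1, Finset.sum_comm]
  have h2 : ∀ R : Finset (Fin n), (∑ r ∈ Finset.range (k + 1), if R.card = r then
          (-1 : ℝ) ^ R.card * ((if R ⊆ F.1 then (1 : ℝ) else 0) * dg f R) else 0)
      = ∑ G : KS n k, f G * (if R ⊆ F.1 ∩ G.1 then (-1 : ℝ) ^ R.card else 0) := by
    intro R
    rw [Finset.sum_ite_eq]
    have h3 : (if R.card ∈ Finset.range (k + 1) then
        (-1 : ℝ) ^ R.card * ((if R ⊆ F.1 then (1 : ℝ) else 0) * dg f R) else 0)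
        = (-1 : ℝ) ^ R.card * ((if R ⊆ F.1 then (1 : ℝ) else 0) * dg f R) := by
      by_cases hR : R ⊆ F.1
      · have : R.card ∈ Finset.range (k + 1) := by
          have := Finset.card_le_card hR
          rw [F.2] at this
          exact Finset.mem_range.2 (by omega)
        rw [if_pos this]
      · simp [hR]
    rw [h3]
    by_cases hR : R ⊆ F.1
    · rw [if_pos hR, one_mul, dg, Finset.mul_sum]
      refine Finset.sum_congr rfl fun G _ => ?_
      by_cases hG : R ⊆ G.1
      · rw [if_pos hG, if_pos (Finset.subset_inter hR hG), mul_comm]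
      · rw [if_neg hG, if_neg fun h => hG (h.trans Finset.inter_subset_right)]
        simp
    · rw [if_neg hR, zero_mul, mul_zero]
      symm
      refine Finset.sum_eq_zero fun G _ => ?_
      rw [if_neg fun h => hR (h.trans Finset.inter_subset_left), mul_zero]
  rw [Finset.sum_congr rfl fun R _ => h2 R, Finset.sum_comm]
  have h4 : K n k f F = ∑ G : KS n k, if Disjoint F.1 G.1 then f G else 0 := rfl
  rw [h4]
  refine Finset.sum_congr rfl fun G _ => ?_
  rw [← Finset.mul_sum, alt_sum]
  by_cases h : Disjoint F.1 G.1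
  · rw [if_pos h, if_pos (Finset.disjoint_iff_inter_eq_empty.1 h), mul_one]
  · rw [if_neg h, if_neg fun h' => h (Finset.disjoint_iff_inter_eq_empty.2 h'), mul_zero]

end Pool.Agent.DPS.H39
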