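import Pool.Agent.DPS.Stmts

/-!
DPS row MEV (MP_d97b4e_co): the values of `mp n k r` at the eigenvalues.
-/

namespace Pool.Agent.DPS.H39

open Finset Polynomial

theorem prodY (n r j : ℕ) (hjr : j ≤ r) : ∀ d : ℕ, r + d + j ≤ n →
    ∏ l ∈ Finset.Ioc r (r + d), (y n l - y n j) =
      ((r + d - j).descFactorial d : ℝ) * ((n - r - j).descFactorial d : ℝ)
  | 0, _ => by simp
  | d + 1, h => by
    have ih := prodY n r j hjr d (by omega)
    have hI : Finset.Ioc r (r + (d + 1)) = insert (r + d + 1) (Finset.Ioc r (r + d)) := by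
      ext x
      simp only [Finset.mem_Ioc, Finset.mem_insert]
      omega
    have hni : r + d + 1 ∉ Finset.Ioc r (r + d) := by
      simp
    rw [hI, Finset.prod_insert hni, ih]
    obtain ⟨e, rfl⟩ := Nat.exists_eq_add_of_le hjr
    have h1 : j + e + (d + 1) - j = (e + d) + 1 := by omega
    have h2 : j + e + d - j = e + d := by omega
    rw [h1, h2, Nat.succ_descFactorial_succ, Nat.descFactorial_succ]
    obtain ⟨m, hm⟩ := Nat.exists_eq_add_of_le h
    have h3 : n - (j + e) - j - d = m + 1 := by omega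
    have hn : (n : ℝ) = (j : ℝ) + e + d + 1 + j + m := by
      rw [hm]
      push_cast
      ring
    rw [h3]
    have hy : y n (j + e + d + 1) - y n j = ((e : ℝ) + d + 1) * (m + 1) := by
      unfold y
      rw [hn]
      push_cast
      ring
    rw [hy]
    push_cast
    ring

theorem mev : MEVStmt := by
  intro n k r j hn hr hj
  have h0 : (mp n k r).eval (y n j) =
      (1 / (((k - r).factorial : ℝ)) ^ 2) * ∏ l ∈ Finset.Ioc r k, (y n l - y n j) := by
    unfold mp
    rw [Polynomial.eval_mul, Polynomial.eval_C, Polynomial.eval_prod]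
    simp
  rw [h0]
  by_cases h : j ≤ r
  · rw [if_pos h]
    obtain ⟨d, rfl⟩ := Nat.exists_eq_add_of_le hr
    rw [prodY n r j h d (by omega)]
    have hd : r + d - r = d := by omega
    rw [hd, Nat.descFactorial_eq_factorial_mul_choose, Nat.descFactorial_eq_factorial_mul_choose]
    have hf : ((d.factorial : ℕ) : ℝ) ≠ 0 := Nat.cast_ne_zero.2 (Nat.factorial_ne_zero d)
    push_cast
    field_simp
  · rw [if_neg h]
    rw [Finset.prod_eq_zero (i := j) (Finset.mem_Ioc.2 ⟨by omega, hj⟩) (sub_self _), mul_zero]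

end Pool.Agent.DPS.H39
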